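import Pool.Agent.MP_35f30a_al.C74.DV4

set_option autoImplicit false

namespace Pool.Agent.Results.MP_35f30a_al.KilledByDivisionRing

/-- Every element of a free associative algebra over a field that is not a scalar is killed by a
homomorphism to a division ring. -/
theorem result (k : Type) [Field k] (X : Type) (a : FreeAlgebra k X)
    (ha : a ∉ Set.range (algebraMap k (FreeAlgebra k X))) :
    ∃ (D : Type) (_ : DivisionRing D) (_ : Algebra k D) (φ : FreeAlgebra k X →ₐ[k] D), φ a = 0 :=
  C74.killed k X a ha

end Pool.Agent.Results.MP_35f30a_al.KilledByDivisionRing
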